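import Pool.Agent.H71.ASF.StmtsM

/-!
# Project ASF, module CWH
-/

namespace ASF

universe u

theorem cwh : CWHStmt.{u} := by
  intro R _ A _ _ _ _ q 𝒜 B hGP
  refine ⟨?_, ?_, ?_⟩
  · intro k
    induction k with
    | zero =>
      intro b hb
      exact Submodule.subset_span ⟨hb, 0, hGP.le hb⟩
    | succ k ih =>
      change Submodule.span R {z | ∃ w ∈ WW B k, ∃ a : A, ∃ d ∈ B, z = (w * a) * d} ≤ _
      rw [Submodule.span_le]
      rintro z ⟨w, hw, a, d, hd, rfl⟩
      change (w * a) * d ∈ Submodule.span R {r | r ∈ WW B (k + 1) ∧ ∃ i, r ∈ 𝒜 i}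
      have hw' := ih hw
      induction hw' using Submodule.span_induction with
      | mem w hw'' =>
        obtain ⟨hw1, i, hwi⟩ := hw''
        have ha : a ∈ ⨆ j, 𝒜 j := by rw [hGP.grd.sup]; trivial
        induction ha using Submodule.iSup_induction' with
        | mem j a ha =>
          refine Submodule.subset_span ⟨?_, i + j + 0, ?_⟩
          · exact Submodule.subset_span ⟨w, hw1, a, d, hd, rfl⟩
          · exact hGP.grd.mul _ _ _ (hGP.grd.mul _ _ _ hwi _ ha) _ (hGP.le hd)
        | zero => rw [mul_zero, zero_mul]; exact Submodule.zero_mem _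
        | add a b _ _ h1 h2 => rw [mul_add, add_mul]; exact Submodule.add_mem _ h1 h2
      | zero => rw [zero_mul, zero_mul]; exact Submodule.zero_mem _
      | add x y hx hy h1 h2 =>
        have hl : Submodule.span R {r | r ∈ WW B k ∧ ∃ i, r ∈ 𝒜 i} ≤ WW B k :=
          Submodule.span_le.2 fun r hr => hr.1
        rw [add_mul, add_mul]
        exact Submodule.add_mem _ (h1 (hl hx)) (h2 (hl hy))
      | smul c x hx h1 =>
        have hl : Submodule.span R {r | r ∈ WW B k ∧ ∃ i, r ∈ 𝒜 i} ≤ WW B k :=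
          Submodule.span_le.2 fun r hr => hr.1
        rw [smul_mul_assoc, smul_mul_assoc]
        exact Submodule.smul_mem _ _ (h1 (hl hx))
  · intro k
    refine le_sInf ?_
    rintro I ⟨hI, hBI⟩
    induction k with
    | zero => exact hBI
    | succ k ih =>
      change Submodule.span R {z | ∃ w ∈ WW B k, ∃ a : A, ∃ d ∈ B, z = (w * a) * d} ≤ _
      rw [Submodule.span_le]
      rintro z ⟨w, hw, a, d, hd, rfl⟩
      exact (hI _ (hI _ (ih hw) a).2 d).2
  · intro A' _ _ _ _ π hπ hs k
    induction k with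
    | zero => rfl
    | succ k ih =>
      change (Submodule.span R {z | ∃ w ∈ WW B k, ∃ a : A, ∃ d ∈ B, z = (w * a) * d}).map π =
        Submodule.span R {z | ∃ w ∈ WW (B.map π) k, ∃ a : A', ∃ d ∈ B.map π, z = (w * a) * d}
      rw [Submodule.map_span]
      congr 1
      ext z
      constructor
      · rintro ⟨_, ⟨w, hw, a, d, hd, rfl⟩, rfl⟩
        refine ⟨π w, ?_, π a, π d, ⟨d, hd, rfl⟩, by rw [hπ, hπ]⟩
        rw [← ih]
        exact ⟨w, hw, rfl⟩
      · rintro ⟨w', hw', a', d', ⟨d, hd, rfl⟩, rfl⟩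
        rw [← ih] at hw'
        obtain ⟨w, hw, rfl⟩ := hw'
        obtain ⟨a, rfl⟩ := hs a'
        exact ⟨(w * a) * d, ⟨w, hw, a, d, hd, rfl⟩, by rw [hπ, hπ]⟩

end ASF
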