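import Pool.Agent.H71.ASF.StmtsM

/-!
# Project ASF, module QUO: quotient by an ideal
-/

namespace ASF

universe u

namespace QUO

variable {R : Type} [CommRing R] {A : Type u} [NonUnitalNonAssocRing A]
  [Module R A] [IsScalarTower R A A] [SMulCommClass R A A] (K : Submodule R A)

/-- multiplication on the quotient -/
def qmul (hK : IsIdl K) (a b : A ⧸ K) : A ⧸ K :=
  Quotient.liftOn₂' a b (fun x y => (Submodule.Quotient.mk (x * y) : A ⧸ K)) (by
    intro a1 b1 a2 b2 h1 h2
    have h1' : a1 - a2 ∈ K := (Submodule.quotientRel_def K).1 h1
    have h2' : b1 - b2 ∈ K := (Submodule.quotientRel_def K).1 h2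
    change (Submodule.Quotient.mk (a1 * b1) : A ⧸ K) = Submodule.Quotient.mk (a2 * b2)
    rw [Submodule.Quotient.eq]
    have e : a1 * b1 - a2 * b2 = (a1 - a2) * b1 + a2 * (b1 - b2) := by
      rw [sub_mul, mul_sub]
      abel
    rw [e]
    exact K.add_mem (hK _ h1' b1).2 (hK _ h2' a2).1)

theorem qmul_mk (hK : IsIdl K) (x y : A) :
    qmul K hK (Submodule.Quotient.mk x) (Submodule.Quotient.mk y) =
      Submodule.Quotient.mk (x * y) := rfl

/-- the ring structure -/
def qring (hK : IsIdl K) : NonUnitalNonAssocRing (A ⧸ K) :=
  { (inferInstance : AddCommGroup (A ⧸ K)) with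
    mul := qmul K hK
    left_distrib := by
      intro a b c
      induction a using Submodule.Quotient.induction_on with | H a => ?_
      induction b using Submodule.Quotient.induction_on with | H b => ?_
      induction c using Submodule.Quotient.induction_on with | H c => ?_
      change (Submodule.Quotient.mk (a * (b + c)) : A ⧸ K) =
        Submodule.Quotient.mk (a * b + a * c)
      rw [mul_add]
    right_distrib := by
      intro a b c
      induction a using Submodule.Quotient.induction_on with | H a => ?_
      induction b using Submodule.Quotient.induction_on with | H b => ?_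
      induction c using Submodule.Quotient.induction_on with | H c => ?_
      change (Submodule.Quotient.mk ((a + b) * c) : A ⧸ K) =
        Submodule.Quotient.mk (a * c + b * c)
      rw [add_mul]
    zero_mul := by
      intro a
      induction a using Submodule.Quotient.induction_on with | H a => ?_
      change (Submodule.Quotient.mk (0 * a) : A ⧸ K) = Submodule.Quotient.mk 0
      rw [zero_mul]
    mul_zero := by
      intro a
      induction a using Submodule.Quotient.induction_on with | H a => ?_
      change (Submodule.Quotient.mk (a * 0) : A ⧸ K) = Submodule.Quotient.mk 0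
      rw [mul_zero] }

end QUO

open QUO in
theorem quo : QUOStmt.{u} := by
  intro R _ A _ _ _ _ _ K hK
  letI ring' : NonUnitalNonAssocRing (A ⧸ K) := qring K hK
  letI mod' : Module R (A ⧸ K) := Submodule.Quotient.module K
  have hm : ∀ x y : A, (Submodule.Quotient.mk x : A ⧸ K) * Submodule.Quotient.mk y =
      Submodule.Quotient.mk (x * y) := fun x y => rfl
  refine ⟨A ⧸ K, ring', mod', ⟨?_⟩, ⟨?_⟩, ⟨?_, ?_⟩, K.mkQ, ?_, ?_, ?_⟩
  · intro r x y
    induction x using Submodule.Quotient.induction_on with | H x => ?_
    induction y using Submodule.Quotient.induction_on with | H y => ?_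
    change (Submodule.Quotient.mk ((r • x) * y) : A ⧸ K) =
      Submodule.Quotient.mk (r • (x * y))
    rw [smul_mul_assoc]
  · intro r x y
    induction x using Submodule.Quotient.induction_on with | H x => ?_
    induction y using Submodule.Quotient.induction_on with | H y => ?_
    change (Submodule.Quotient.mk (r • (x * y)) : A ⧸ K) =
      Submodule.Quotient.mk (x * (r • y))
    rw [mul_smul_comm]
  · intro x y
    induction x using Submodule.Quotient.induction_on with | H x => ?_
    induction y using Submodule.Quotient.induction_on with | H y => ?_
    rw [hm, hm, hm, hm, Alt.left]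
  · intro x y
    induction x using Submodule.Quotient.induction_on with | H x => ?_
    induction y using Submodule.Quotient.induction_on with | H y => ?_
    rw [hm, hm, hm, hm, Alt.right]
  · intro x y
    rfl
  · exact Submodule.mkQ_surjective K
  · intro x
    exact Submodule.Quotient.mk_eq_zero K

end ASF
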